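import Mathlib
import Pool.Agent.W663.KK.Perturb

set_option autoImplicit false
set_option linter.unusedSectionVars false

open Filter Topology
open scoped InnerProductSpace
open Pool.Agent.W663.KK (exists_wlim op_norm_le_of_inner ext_inner_op)

namespace Pool.Agent.W203.KKS

/-- a group with an increasing exhaustion by finite sets that are stable under multiplication -/
class LF (G : Type) [Group G] where
  F : ℕ → Finset G
  mono : Monotone F
  one : ∀ n, (1 : G) ∈ F n
  mul : ∀ n, ∀ a ∈ F n, ∀ b ∈ F n, a * b ∈ F n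
  inv : ∀ n, ∀ a ∈ F n, a⁻¹ ∈ F n
  cover : ∀ a, ∃ n, a ∈ F n

variable {G : Type} [Group G] [LF G] {H : Type} [NormedAddCommGroup H] [InnerProductSpace ℂ H]
  [CompleteSpace H]

/-- the ultrafilter used for the means -/
noncomputable def UU : Ultrafilter ℕ := Ultrafilter.of (atTop : Filter ℕ)

theorem UU_le : ((UU : Ultrafilter ℕ) : Filter ℕ) ≤ atTop := Ultrafilter.of_le _

theorem card_ne (n : ℕ) : (((LF.F (G := G) n).card : ℂ)) ≠ 0 := by
  have : (LF.F (G := G) n).card ≠ 0 := Finset.card_ne_zero_of_mem (LF.one n)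
  exact_mod_cast this

/-- the finite averages of `f` -/
noncomputable def TT {E : Type} [AddCommGroup E] [Module ℂ E] (f : G → E) (n : ℕ) : E :=
  ((LF.F (G := G) n).card : ℂ)⁻¹ • ∑ g ∈ LF.F (G := G) n, f g

theorem TT_bound {f : G → (H →L[ℂ] H)} {C : ℝ} (hf : ∀ g, ‖f g‖ ≤ C) (n : ℕ) :
    ‖TT f n‖ ≤ C := by
  unfold TT
  have h0 : (0 : ℝ) < (LF.F (G := G) n).card := by
    exact_mod_cast Finset.card_pos.2 ⟨1, LF.one n⟩
  rw [norm_smul, norm_inv, Complex.norm_natCast]
  have h1 : ‖∑ g ∈ LF.F (G := G) n, f g‖ ≤ (LF.F (G := G) n).card * C := by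
    refine (norm_sum_le _ _).trans ?_
    refine (Finset.sum_le_sum fun k _ => hf _).trans ?_
    simp
  rw [inv_mul_le_iff₀ h0]
  exact h1

theorem TT_map {E E' : Type} [AddCommGroup E] [Module ℂ E] [AddCommGroup E'] [Module ℂ E']
    (L : E →ₗ[ℂ] E') (f : G → E) (n : ℕ) : TT (fun y => L (f y)) n = L (TT f n) := by
  unfold TT
  rw [map_smul, map_sum]

theorem TT_add {E : Type} [AddCommGroup E] [Module ℂ E] (f f' : G → E) (n : ℕ) :
    TT (fun y => f y + f' y) n = TT f n + TT f' n := by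
  unfold TT
  rw [← smul_add, ← Finset.sum_add_distrib]

theorem TT_const {E : Type} [AddCommGroup E] [Module ℂ E] (a : E) (n : ℕ) :
    TT (fun _ : G => a) n = a := by
  unfold TT
  rw [Finset.sum_const, ← Nat.cast_smul_eq_nsmul ℂ, smul_smul, inv_mul_cancel₀ (card_ne n),
    one_smul]

theorem TT_shift {E : Type} [AddCommGroup E] [Module ℂ E] (f : G → E) (g : G) (n : ℕ)
    (hg : g ∈ LF.F (G := G) n) : TT (fun x => f (g * x)) n = TT f n := by
  unfold TT
  congr 1
  refine Finset.sum_bij' (fun x _ => g * x) (fun x _ => g⁻¹ * x) ?_ ?_ ?_ ?_ ?_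
  · exact fun x hx => LF.mul n g hg x hx
  · exact fun x hx => LF.mul n _ (LF.inv n g hg) x hx
  · exact fun x _ => by group
  · exact fun x _ => by group
  · exact fun x _ => rfl

open Classical in
/-- the mean of a bounded function (junk for unbounded functions) -/
noncomputable def mean (f : G → (H →L[ℂ] H)) : H →L[ℂ] H :=
  if h : ∃ C : ℝ, ∀ g, ‖f g‖ ≤ C then
    (exists_wlim UU (TT f) h.choose (fun i => TT_bound h.choose_spec _)).choose else 0

/-- boundedness -/
def Bd (f : G → (H →L[ℂ] H)) : Prop := ∃ C : ℝ, ∀ g, ‖f g‖ ≤ C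

theorem mean_tendsto {f : G → (H →L[ℂ] H)} (h : Bd f) (ξ η : H) :
    Tendsto (fun i => ⟪ξ, TT f i η⟫_ℂ) UU (𝓝 ⟪ξ, mean f η⟫_ℂ) := by
  unfold mean
  unfold Bd at h
  rw [dif_pos h]
  exact (exists_wlim UU (TT f) h.choose (fun i => TT_bound h.choose_spec _)).choose_spec
    ξ η

theorem mean_norm {f : G → (H →L[ℂ] H)} {C : ℝ} (h : ∀ g, ‖f g‖ ≤ C) : ‖mean f‖ ≤ C := by
  have hC : 0 ≤ C := (norm_nonneg _).trans (h 1)
  refine op_norm_le_of_inner hC fun ξ η => ?_
  have h1 := (mean_tendsto ⟨C, h⟩ ξ η).norm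
  refine le_of_tendsto h1 (Eventually.of_forall fun i => ?_)
  refine (norm_inner_le_norm _ _).trans ?_
  have h2 : ‖TT f i η‖ ≤ C * ‖η‖ := by
    refine ((TT f i).le_opNorm η).trans ?_
    exact mul_le_mul_of_nonneg_right (TT_bound h _) (norm_nonneg _)
  calc ‖ξ‖ * ‖TT f i η‖ ≤ ‖ξ‖ * (C * ‖η‖) := mul_le_mul_of_nonneg_left h2 (norm_nonneg _)
    _ = C * ‖ξ‖ * ‖η‖ := by ring

theorem mean_unique {f : G → (H →L[ℂ] H)} (h : Bd f) {S : H →L[ℂ] H}
    (hS : ∀ ξ η : H, Tendsto (fun i => ⟪ξ, TT f i η⟫_ℂ) UU (𝓝 ⟪ξ, S η⟫_ℂ)) : mean f = S :=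
  ext_inner_op fun ξ η => tendsto_nhds_unique (mean_tendsto h ξ η) (hS ξ η)

theorem mean_add {f f' : G → (H →L[ℂ] H)} (h : Bd f) (h' : Bd f') :
    mean (fun g => f g + f' g) = mean f + mean f' := by
  obtain ⟨C, hC⟩ := h
  obtain ⟨C', hC'⟩ := h'
  refine mean_unique ⟨C + C', fun g => (norm_add_le _ _).trans (add_le_add (hC g) (hC' g))⟩ ?_
  intro ξ η
  have h1 := (mean_tendsto ⟨C, hC⟩ ξ η).add (mean_tendsto ⟨C', hC'⟩ ξ η)
  rw [add_apply, inner_add_right]
  refine h1.congr fun i => ?_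
  rw [TT_add, add_apply, inner_add_right]

theorem mean_const (a : H →L[ℂ] H) : mean (fun _ : G => a) = a := by
  refine mean_unique ⟨‖a‖, fun _ => le_rfl⟩ fun ξ η => ?_
  simp only [TT_const]
  exact tendsto_const_nhds

theorem mean_mul {f : G → (H →L[ℂ] H)} (h : Bd f) (a b : H →L[ℂ] H) :
    mean (fun g => a * f g * b) = a * mean f * b := by
  obtain ⟨C, hC⟩ := h
  have hb : Bd (fun g => a * f g * b) := by
    refine ⟨‖a‖ * C * ‖b‖, fun g => ?_⟩
    refine (norm_mul_le _ _).trans (mul_le_mul_of_nonneg_right ?_ (norm_nonneg _))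
    exact (norm_mul_le _ _).trans (mul_le_mul_of_nonneg_left (hC g) (norm_nonneg _))
  refine mean_unique hb fun ξ η => ?_
  have h1 := mean_tendsto ⟨C, hC⟩ (ContinuousLinearMap.adjoint a ξ) (b η)
  have h2 : ⟪ContinuousLinearMap.adjoint a ξ, mean f (b η)⟫_ℂ = ⟪ξ, (a * mean f * b) η⟫_ℂ := by
    rw [ContinuousLinearMap.adjoint_inner_left]; rfl
  rw [← h2]
  refine h1.congr fun i => ?_
  let L : (H →L[ℂ] H) →ₗ[ℂ] (H →L[ℂ] H) :=
    { toFun := fun T => a * T * b
      map_add' := fun S T => by rw [mul_add, add_mul]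
      map_smul' := fun c T => by simp [mul_smul_comm, smul_mul_assoc] }
  have h3 : TT (fun g => a * f g * b) i = a * TT f i * b := TT_map L f i
  rw [h3, ContinuousLinearMap.adjoint_inner_left]
  rfl

theorem mean_star {f : G → (H →L[ℂ] H)} (h : Bd f) :
    mean (fun g => star (f g)) = star (mean f) := by
  obtain ⟨C, hC⟩ := h
  have hb : Bd (fun g => star (f g)) := ⟨C, fun g => by rw [norm_star]; exact hC g⟩
  refine mean_unique hb fun ξ η => ?_
  have h1 := (Complex.continuous_conj.tendsto _).comp (mean_tendsto ⟨C, hC⟩ η ξ)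
  have h2 : (starRingEnd ℂ) ⟪η, mean f ξ⟫_ℂ = ⟪ξ, (star (mean f)) η⟫_ℂ := by
    rw [inner_conj_symm, ContinuousLinearMap.star_eq_adjoint,
      ContinuousLinearMap.adjoint_inner_right]
  rw [h2] at h1
  refine h1.congr fun i => ?_
  have h4 : TT (fun g => star (f g)) i = star (TT f i) := by
    unfold TT
    rw [star_smul, star_sum]
    congr 1
    simp
  rw [h4]
  show (starRingEnd ℂ) ⟪η, TT f i ξ⟫_ℂ = _
  rw [inner_conj_symm, ContinuousLinearMap.star_eq_adjoint,
    ContinuousLinearMap.adjoint_inner_right]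

theorem mean_shift {f : G → (H →L[ℂ] H)} (h : Bd f) (g : G) :
    mean (fun x => f (g * x)) = mean f := by
  obtain ⟨C, hC⟩ := h
  refine mean_unique ⟨C, fun x => hC _⟩ fun ξ η => ?_
  have h1 := mean_tendsto ⟨C, hC⟩ ξ η
  obtain ⟨N, hN⟩ := LF.cover g
  refine h1.congr' ?_
  refine Filter.Eventually.filter_mono UU_le ?_
  filter_upwards [eventually_ge_atTop N] with n hn
  rw [TT_shift f g n (LF.mono hn hN)]

theorem mean_mem (N : VonNeumannAlgebra H) {f : G → (H →L[ℂ] H)} (h : Bd f)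
    (hf : ∀ g, f g ∈ N) : mean f ∈ N := by
  have h1 : mean f ∈ Set.centralizer (Set.centralizer (N : Set (H →L[ℂ] H))) := by
    rw [Set.mem_centralizer_iff]
    intro t ht
    have h2 := mean_mul h t 1
    have h3 := mean_mul h 1 t
    simp only [mul_one, one_mul] at h2 h3
    rw [← h2, ← h3]
    congr 1
    funext g
    exact (ht (f g) (hf g)).symm
  rw [VonNeumannAlgebra.centralizer_centralizer] at h1
  exact h1

theorem mean_sub {f f' : G → (H →L[ℂ] H)} (h : Bd f) (h' : Bd f') :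
    mean (fun g => f g - f' g) = mean f - mean f' := by
  have h1 : Bd (fun g => -f' g) := by
    obtain ⟨C, hC⟩ := h'
    exact ⟨C, fun g => by rw [norm_neg]; exact hC g⟩
  have h2 : mean (fun g => -f' g) = -mean f' := by
    have := mean_mul h' (-1) 1
    simpa using this
  have h3 := mean_add h h1
  rw [h2] at h3
  simpa [sub_eq_add_neg] using h3

end Pool.Agent.W203.KKS
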