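import Mathlib
import Pool.Agent.W203.KKS.Mean
import Pool.Agent.W663.KK.Iter

set_option autoImplicit false
set_option linter.unusedSectionVars false

open Filter Topology
open scoped InnerProductSpace
open Pool.Agent.W663.KK (norm_unitary_le polar_unitary near_unitary mem_of_tendsto_vn)

namespace Pool.Agent.W203.KKS

variable {G : Type} [Group G] [LF G] {H : Type} [NormedAddCommGroup H] [InnerProductSpace ℂ H]
  [CompleteSpace H]

/-- one step of the iteration -/
theorem perturb_step (U : G →* (H →L[ℂ] H))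
    (hU : ∀ g, U g ∈ unitary (H →L[ℂ] H)) (N : VonNeumannAlgebra H) {γ : ℝ} (hγ : γ ≤ 1 / 400)
    (h : ∀ g, ∃ y ∈ N, ‖U g - y‖ ≤ γ) :
    ∃ w ∈ unitary (H →L[ℂ] H), ‖w - 1‖ ≤ 8 * γ ∧
      (∀ S, (∀ g, S * U g = U g * S) → (∀ y ∈ N, S * y = y * S) → S * w = w * S) ∧
      ∀ g, ∃ y ∈ N, ‖w * U g * star w - y‖ ≤ 200 * γ ^ 2 := by
  have hγ0 : 0 ≤ γ := by
    obtain ⟨y, _, hy⟩ := h 1
    exact (norm_nonneg _).trans hy
  have hφ : ∀ g, ∃ φ ∈ unitary (H →L[ℂ] H), φ ∈ N ∧ ‖φ - U g‖ ≤ 4 * γ := by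
    intro g
    obtain ⟨y, hyN, hy⟩ := h g
    exact near_unitary N (hU g) hyN (by linarith) hy
  choose φ hφu hφN hφ1 using hφ
  set β : ℝ := 4 * γ with hβ
  have hβ0 : 0 ≤ β := by positivity
  set b : G → (H →L[ℂ] H) := fun g => φ g * star (U g) with hb
  have hbu : ∀ g, b g ∈ unitary (H →L[ℂ] H) := fun g =>
    mul_mem (hφu g) (Unitary.star_mem (hU g))
  have hUn : ∀ g, ‖U g‖ ≤ 1 := fun g => norm_unitary_le (hU g)
  have hUn' : ∀ g, ‖star (U g)‖ ≤ 1 := fun g => by rw [norm_star]; exact hUn g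
  have hb1 : ∀ g, ‖b g - 1‖ ≤ β := by
    intro g
    have h1 : b g - 1 = (φ g - U g) * star (U g) := by
      rw [sub_mul, (Unitary.mem_iff.1 (hU g)).2]
    rw [h1]
    calc ‖(φ g - U g) * star (U g)‖ ≤ ‖φ g - U g‖ * ‖star (U g)‖ := norm_mul_le _ _
      _ ≤ β * 1 := mul_le_mul (hφ1 g) (hUn' g) (norm_nonneg _) hβ0
      _ = β := mul_one β
  have hbB : Bd b := ⟨1, fun g => norm_unitary_le (hbu g)⟩
  have hbB' : Bd (fun g => star (b g)) := ⟨1, fun g => by rw [norm_star]; exact norm_unitary_le (hbu g)⟩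
  set T : H →L[ℂ] H := mean b with hT
  have hc1 : Bd (fun _ : G => (1 : H →L[ℂ] H)) := ⟨‖(1 : H →L[ℂ] H)‖, fun _ => le_rfl⟩
  have hcc : ∀ a : H →L[ℂ] H, Bd (fun _ : G => a) := fun a => ⟨‖a‖, fun _ => le_rfl⟩
  have hT1 : ‖T - 1‖ ≤ β := by
    have h1 : T - 1 = mean (fun g => b g - 1) := by
      rw [mean_sub hbB hc1, mean_const]
    rw [h1]
    exact mean_norm hb1
  have hTs : mean (fun g => star (b g)) = star T := mean_star hbB
  have hD : ∀ g, ‖b g - T‖ ≤ 2 * β := by
    intro g
    calc ‖b g - T‖ = ‖(b g - 1) - (T - 1)‖ := by congr 1; abel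
      _ ≤ ‖b g - 1‖ + ‖T - 1‖ := norm_sub_le _ _
      _ ≤ 2 * β := by linarith [hb1 g]
  have hDs : ∀ g, ‖star (b g - T)‖ ≤ 2 * β := fun g => by rw [norm_star]; exact hD g
  -- a general computation
  have hgen : ∀ (p : G → (H →L[ℂ] H)) (q : G → (H →L[ℂ] H)) (V : H →L[ℂ] H) (P Q : H →L[ℂ] H),
      Bd p → Bd q → mean p = P → mean q = Q → ‖V‖ ≤ 1 → (∀ g, ‖p g - P‖ ≤ 2 * β) →
      (∀ g, ‖q g - Q‖ ≤ 2 * β) →
      ‖mean (fun g => p g * V * q g) - P * V * Q‖ ≤ 4 * β ^ 2 := by
    intro p q V P Q hp hq hP hQ hV hp2 hq2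
    obtain ⟨Cp, hCp⟩ := hp
    obtain ⟨Cq, hCq⟩ := hq
    have hCp0 : 0 ≤ Cp := (norm_nonneg _).trans (hCp 1)
    have hCq0 : 0 ≤ Cq := (norm_nonneg _).trans (hCq 1)
    have b1 : Bd (fun g => p g * V * q g) := by
      refine ⟨Cp * ‖V‖ * Cq, fun g => ?_⟩
      refine (norm_mul_le _ _).trans (mul_le_mul ?_ (hCq g) (norm_nonneg _) (by positivity))
      exact (norm_mul_le _ _).trans (mul_le_mul_of_nonneg_right (hCp g) (norm_nonneg _))
    have b2 : Bd (fun g => p g * V * Q) := by
      refine ⟨Cp * ‖V‖ * ‖Q‖, fun g => ?_⟩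
      refine (norm_mul_le _ _).trans (mul_le_mul_of_nonneg_right ?_ (norm_nonneg _))
      exact (norm_mul_le _ _).trans (mul_le_mul_of_nonneg_right (hCp g) (norm_nonneg _))
    have b3 : Bd (fun g => P * V * q g) := by
      refine ⟨‖P * V‖ * Cq, fun g => ?_⟩
      exact (norm_mul_le _ _).trans (mul_le_mul_of_nonneg_left (hCq g) (norm_nonneg _))
    have m2 : mean (fun g => p g * V * Q) = P * V * Q := by
      have := mean_mul ⟨Cp, hCp⟩ 1 (V * Q)
      simp only [one_mul, ← mul_assoc] at this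
      rw [this, hP]
    have m3 : mean (fun g => P * V * q g) = P * V * Q := by
      have := mean_mul ⟨Cq, hCq⟩ (P * V) 1
      simp only [mul_one] at this
      rw [this, hQ]
    have e1 : mean (fun g => (p g - P) * V * (q g - Q)) =
        mean (fun g => p g * V * q g) - P * V * Q := by
      have e2 : (fun g => (p g - P) * V * (q g - Q)) = fun g =>
          (p g * V * q g - p g * V * Q) - (P * V * q g - P * V * Q) := by
        funext g; noncomm_ring
      have b4 : Bd (fun g => p g * V * q g - p g * V * Q) := by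
        obtain ⟨C1, h1⟩ := b1
        obtain ⟨C2, h2⟩ := b2
        exact ⟨C1 + C2, fun g => (norm_sub_le _ _).trans (add_le_add (h1 g) (h2 g))⟩
      have b5 : Bd (fun g => P * V * q g - P * V * Q) := by
        obtain ⟨C1, h1⟩ := b3
        exact ⟨C1 + ‖P * V * Q‖, fun g => (norm_sub_le _ _).trans (add_le_add (h1 g) le_rfl)⟩
      rw [e2, mean_sub b4 b5, mean_sub b1 b2, mean_sub b3 (hcc _), mean_const, m2, m3]
      abel
    rw [← e1]
    refine mean_norm fun g => ?_
    calc ‖(p g - P) * V * (q g - Q)‖ ≤ ‖(p g - P) * V‖ * ‖q g - Q‖ := norm_mul_le _ _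
      _ ≤ (‖p g - P‖ * ‖V‖) * ‖q g - Q‖ :=
          mul_le_mul_of_nonneg_right (norm_mul_le _ _) (norm_nonneg _)
      _ ≤ (2 * β * 1) * (2 * β) := by
          refine mul_le_mul ?_ (hq2 g) (norm_nonneg _) (by positivity)
          exact mul_le_mul (hp2 g) hV (norm_nonneg _) (by positivity)
      _ = 4 * β ^ 2 := by ring
  have hone : ‖(1 : H →L[ℂ] H)‖ ≤ 1 := ContinuousLinearMap.norm_id_le
  have hDs' : ∀ g, ‖star (b g) - star T‖ ≤ 2 * β := fun g => by rw [← star_sub]; exact hDs g
  have hTT : ‖T * star T - 1‖ ≤ 4 * β ^ 2 := by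
    have h1 := hgen b (fun g => star (b g)) 1 T (star T) hbB hbB' rfl hTs hone hD hDs'
    have h2 : (fun g => b g * 1 * star (b g)) = fun _ : G => (1 : H →L[ℂ] H) := by
      funext g
      rw [mul_one, (Unitary.mem_iff.1 (hbu g)).2]
    rw [h2, mean_const, mul_one, norm_sub_rev] at h1
    exact h1
  have hTT' : ‖star T * T - 1‖ ≤ 4 * β ^ 2 := by
    have h1 := hgen (fun g => star (b g)) b 1 (star T) T hbB' hbB hTs rfl hone hDs' hD
    have h2 : (fun g => star (b g) * 1 * b g) = fun _ : G => (1 : H →L[ℂ] H) := by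
      funext g
      rw [mul_one, (Unitary.mem_iff.1 (hbu g)).1]
    rw [h2, mean_const, mul_one, norm_sub_rev] at h1
    exact h1
  have hβ1 : β ≤ 1 / 100 := by rw [hβ]; linarith
  have hβ2 : 4 * β ^ 2 < 1 := by nlinarith
  obtain ⟨w, hw, hwT, hwc⟩ := polar_unitary hβ2 hTT' hTT
  have hw1 := norm_unitary_le hw
  have hws1 : ‖star w‖ ≤ 1 := by rw [norm_star]; exact hw1
  refine ⟨w, hw, ?_, ?_, ?_⟩
  · calc ‖w - 1‖ = ‖(w - T) + (T - 1)‖ := by congr 1; abel
      _ ≤ ‖w - T‖ + ‖T - 1‖ := norm_add_le _ _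
      _ ≤ 4 * β ^ 2 + β := add_le_add hwT hT1
      _ ≤ 8 * γ := by rw [hβ]; nlinarith
  · intro S hS hSN
    have hSs : ∀ g, S * star (U g) = star (U g) * S := by
      intro g
      have h1 := hS g
      calc S * star (U g) = star (U g) * (U g * S) * star (U g) := by
            rw [← mul_assoc (star (U g)) (U g) S, (Unitary.mem_iff.1 (hU g)).1, one_mul]
        _ = star (U g) * (S * U g) * star (U g) := by rw [h1]
        _ = star (U g) * S * (U g * star (U g)) := by noncomm_ring
        _ = star (U g) * S := by rw [(Unitary.mem_iff.1 (hU g)).2, mul_one]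
    have hSb : ∀ g, S * b g = b g * S := by
      intro g
      show S * (φ g * star (U g)) = φ g * star (U g) * S
      rw [← mul_assoc, hSN _ (hφN g), mul_assoc, hSs g, mul_assoc]
    have hSbs : ∀ g, S * star (b g) = star (b g) * S := by
      intro g
      have h1 := hSb g
      calc S * star (b g) = star (b g) * (b g * S) * star (b g) := by
            rw [← mul_assoc (star (b g)) (b g) S, (Unitary.mem_iff.1 (hbu g)).1, one_mul]
        _ = star (b g) * (S * b g) * star (b g) := by rw [h1]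
        _ = star (b g) * S * (b g * star (b g)) := by noncomm_ring
        _ = star (b g) * S := by rw [(Unitary.mem_iff.1 (hbu g)).2, mul_one]
    refine hwc S ?_ ?_
    · have h1 := mean_mul hbB S 1
      have h2 := mean_mul hbB 1 S
      simp only [mul_one, one_mul] at h1 h2
      rw [← h1, ← h2]
      congr 1
      funext g
      exact hSb g
    · have h1 := mean_mul hbB' S 1
      have h2 := mean_mul hbB' 1 S
      simp only [mul_one, one_mul] at h1 h2
      rw [hTs] at h1 h2
      rw [← h1, ← h2]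
      congr 1
      funext g
      exact hSbs g
  · intro g0
    set p : G → (H →L[ℂ] H) := fun g => b (g0 * g) with hp
    have hpB : Bd p := ⟨1, fun g => norm_unitary_le (hbu _)⟩
    have hpm : mean p = T := mean_shift hbB g0
    have h1 := hgen p (fun g => star (b g)) (U g0) T (star T) hpB hbB' hpm hTs (hUn g0)
      (fun g => hD _) hDs'
    refine ⟨mean (fun g => p g * U g0 * star (b g)), ?_, ?_⟩
    · refine mean_mem N ?_ fun g => ?_
      · refine ⟨1, fun g => ?_⟩
        exact norm_unitary_le (mul_mem (mul_mem (hbu _) (hU g0)) (Unitary.star_mem (hbu g)))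
      · have h2 : p g * U g0 * star (b g) = φ (g0 * g) * star (φ g) := by
          show φ (g0 * g) * star (U (g0 * g)) * U g0 * star (φ g * star (U g)) = _
          rw [map_mul, star_mul, star_mul, star_star]
          calc φ (g0 * g) * (star (U g) * star (U g0)) * U g0 * (U g * star (φ g)) =
              φ (g0 * g) * (star (U g) * (star (U g0) * U g0) * U g) * star (φ g) := by
                noncomm_ring
            _ = φ (g0 * g) * star (φ g) := by
              rw [(Unitary.mem_iff.1 (hU g0)).1, mul_one, (Unitary.mem_iff.1 (hU g)).1, mul_one]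
        rw [h2]
        exact mul_mem (S := StarSubalgebra ℂ (H →L[ℂ] H)) (hφN _)
          (star_mem (s := N.toStarSubalgebra) (hφN g))
    · have h2 : ‖w * U g0 * star w - T * U g0 * star T‖ ≤ 8 * β ^ 2 + 16 * β ^ 4 := by
        have h3 : w * U g0 * star w - T * U g0 * star T =
            (w - T) * U g0 * star w + T * U g0 * star (w - T) := by
          rw [star_sub]; noncomm_ring
        rw [h3]
        have hT2 : ‖T‖ ≤ 1 + 4 * β ^ 2 := by
          calc ‖T‖ = ‖w - (w - T)‖ := by congr 1; abel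
            _ ≤ ‖w‖ + ‖w - T‖ := norm_sub_le _ _
            _ ≤ 1 + 4 * β ^ 2 := add_le_add hw1 hwT
        have h4 : ‖(w - T) * U g0 * star w‖ ≤ 4 * β ^ 2 := by
          calc ‖(w - T) * U g0 * star w‖ ≤ ‖(w - T) * U g0‖ * ‖star w‖ := norm_mul_le _ _
            _ ≤ (‖w - T‖ * ‖U g0‖) * ‖star w‖ :=
                mul_le_mul_of_nonneg_right (norm_mul_le _ _) (norm_nonneg _)
            _ ≤ (4 * β ^ 2 * 1) * 1 := by
                refine mul_le_mul ?_ hws1 (norm_nonneg _) (by positivity)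
                exact mul_le_mul hwT (hUn g0) (norm_nonneg _) (by positivity)
            _ = 4 * β ^ 2 := by ring
        have h5 : ‖T * U g0 * star (w - T)‖ ≤ (1 + 4 * β ^ 2) * (4 * β ^ 2) := by
          have h6 : ‖star (w - T)‖ ≤ 4 * β ^ 2 := by rw [norm_star]; exact hwT
          calc ‖T * U g0 * star (w - T)‖ ≤ ‖T * U g0‖ * ‖star (w - T)‖ := norm_mul_le _ _
            _ ≤ (‖T‖ * ‖U g0‖) * ‖star (w - T)‖ :=
                mul_le_mul_of_nonneg_right (norm_mul_le _ _) (norm_nonneg _)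
            _ ≤ ((1 + 4 * β ^ 2) * 1) * (4 * β ^ 2) := by
                refine mul_le_mul ?_ h6 (norm_nonneg _) (by positivity)
                exact mul_le_mul hT2 (hUn g0) (norm_nonneg _) (by positivity)
            _ = _ := by ring
        calc _ ≤ ‖(w - T) * U g0 * star w‖ + ‖T * U g0 * star (w - T)‖ := norm_add_le _ _
          _ ≤ 4 * β ^ 2 + (1 + 4 * β ^ 2) * (4 * β ^ 2) := add_le_add h4 h5
          _ = 8 * β ^ 2 + 16 * β ^ 4 := by ring
      have h3 : w * U g0 * star w - mean (fun g => p g * U g0 * star (b g)) =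
          (w * U g0 * star w - T * U g0 * star T) -
            (mean (fun g => p g * U g0 * star (b g)) - T * U g0 * star T) := by abel
      rw [h3]
      refine (norm_sub_le _ _).trans ?_
      refine (add_le_add h2 h1).trans ?_
      have h4 : β ^ 4 ≤ β ^ 2 / 10000 := by
        have : β ^ 2 ≤ 1 / 10000 := by nlinarith
        nlinarith [sq_nonneg β]
      have h5 : β ^ 2 = 16 * γ ^ 2 := by rw [hβ]; ring
      nlinarith [sq_nonneg γ]

/-- the state of the iteration -/
def PP (U : G →* (H →L[ℂ] H)) (N : VonNeumannAlgebra H) (γ : ℝ) (n : ℕ) (v : H →L[ℂ] H) : Prop :=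
  v ∈ unitary (H →L[ℂ] H) ∧
    (∀ S, (∀ g, S * U g = U g * S) → (∀ y ∈ N, S * y = y * S) → S * v = v * S) ∧
      ∀ g, ∃ y ∈ N, ‖v * U g * star v - y‖ ≤ γ * (1 / 2) ^ n

theorem PP_step (U : G →* (H →L[ℂ] H))
    (hU : ∀ g, U g ∈ unitary (H →L[ℂ] H)) (N : VonNeumannAlgebra H) {γ : ℝ} (hγ0 : 0 ≤ γ)
    (hγ : γ ≤ 1 / 400) (n : ℕ) (v : H →L[ℂ] H) (hv : PP U N γ n v) :
    ∃ v', PP U N γ (n + 1) v' ∧ ‖v' - v‖ ≤ (8 * γ) * (1 / 2) ^ n := by
  obtain ⟨hvu, hvc, hvN⟩ := hv
  have hvv := (Unitary.mem_iff.1 hvu).1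
  have hvv' := (Unitary.mem_iff.1 hvu).2
  let U' : G →* (H →L[ℂ] H) :=
    { toFun := fun g => v * U g * star v
      map_one' := by rw [map_one, mul_one, hvv']
      map_mul' := fun a b => by
        rw [map_mul]
        calc v * (U a * U b) * star v = v * U a * 1 * U b * star v := by noncomm_ring
          _ = v * U a * (star v * v) * U b * star v := by rw [hvv]
          _ = v * U a * star v * (v * U b * star v) := by noncomm_ring }
  have hU' : ∀ g, U' g ∈ unitary (H →L[ℂ] H) := fun g =>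
    mul_mem (mul_mem hvu (hU g)) (Unitary.star_mem hvu)
  have hpow : (0 : ℝ) < (1 / 2) ^ n := by positivity
  have hpow1 : ((1 : ℝ) / 2) ^ n ≤ 1 := pow_le_one₀ (by norm_num) (by norm_num)
  have hγn : γ * (1 / 2) ^ n ≤ 1 / 400 := by nlinarith
  have hγn0 : 0 ≤ γ * (1 / 2) ^ n := by positivity
  obtain ⟨w, hw, hw1, hwc, hwN⟩ := perturb_step U' hU' N hγn hvN
  have hcomm : ∀ S, (∀ g, S * U g = U g * S) → (∀ y ∈ N, S * y = y * S) → S * w = w * S := by
    intro S hS hSN
    refine hwc S (fun g => ?_) hSN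
    have h1 := hvc S hS hSN
    have h2 : S * star v = star v * S := by
      calc S * star v = star v * (v * S) * star v := by
            rw [← mul_assoc (star v) v S, hvv, one_mul]
        _ = star v * (S * v) * star v := by rw [h1]
        _ = star v * S * (v * star v) := by noncomm_ring
        _ = star v * S := by rw [hvv', mul_one]
    show S * (v * U g * star v) = v * U g * star v * S
    calc S * (v * U g * star v) = (S * v) * U g * star v := by noncomm_ring
      _ = v * (S * U g) * star v := by rw [h1]; noncomm_ring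
      _ = v * U g * (S * star v) := by rw [hS g]; noncomm_ring
      _ = v * U g * star v * S := by rw [h2]; noncomm_ring
  refine ⟨w * v, ⟨mul_mem hw hvu, ?_, ?_⟩, ?_⟩
  · intro S hS hSN
    rw [← mul_assoc, hcomm S hS hSN, mul_assoc, hvc S hS hSN, mul_assoc]
  · intro g
    obtain ⟨y, hyN, hy⟩ := hwN g
    refine ⟨y, hyN, ?_⟩
    have h1 : w * v * U g * star (w * v) = w * U' g * star w := by
      show w * v * U g * star (w * v) = w * (v * U g * star v) * star w
      rw [star_mul]; noncomm_ring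
    rw [h1]
    refine hy.trans ?_
    set a : ℝ := γ * (1 / 2) ^ n with ha
    have h2 : γ * (1 / 2) ^ (n + 1) = a / 2 := by rw [ha, pow_succ]; ring
    rw [h2]
    nlinarith
  · have h1 : w * v - v = (w - 1) * v := by noncomm_ring
    rw [h1]
    calc ‖(w - 1) * v‖ ≤ ‖w - 1‖ * ‖v‖ := norm_mul_le _ _
      _ ≤ (8 * (γ * (1 / 2) ^ n)) * 1 :=
          mul_le_mul hw1 (norm_unitary_le hvu) (norm_nonneg _) (by positivity)
      _ = _ := by ring

/-- a bounded group of unitaries near `N` can be moved into `N` by a unitary near `1` -/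
theorem perturb (U : G →* (H →L[ℂ] H))
    (hU : ∀ g, U g ∈ unitary (H →L[ℂ] H)) (N : VonNeumannAlgebra H) {γ : ℝ} (hγ : γ ≤ 1 / 400)
    (h : ∀ g, ∃ y ∈ N, ‖U g - y‖ ≤ γ) :
    ∃ w ∈ unitary (H →L[ℂ] H), ‖w - 1‖ ≤ 16 * γ ∧
      (∀ S, (∀ g, S * U g = U g * S) → (∀ y ∈ N, S * y = y * S) → S * w = w * S) ∧
      ∀ g, w * U g * star w ∈ N := by
  classical
  have hγ0 : 0 ≤ γ := by
    obtain ⟨y, _, hy⟩ := h 1
    exact (norm_nonneg _).trans hy
  have h0 : PP U N γ 0 1 := by
    refine ⟨one_mem _, fun S _ _ => by rw [mul_one, one_mul], fun g => ?_⟩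
    obtain ⟨y, hyN, hy⟩ := h g
    exact ⟨y, hyN, by simpa using hy⟩
  choose! F hF1 hF2 using fun n v => PP_step U hU N hγ0 hγ n v
  let v : ℕ → (H →L[ℂ] H) := fun n => Nat.rec 1 (fun k x => F k x) n
  have hv0 : v 0 = 1 := rfl
  have hvs : ∀ n, v (n + 1) = F n (v n) := fun n => rfl
  have hvP : ∀ n, PP U N γ n (v n) := by
    intro n
    induction n with
    | zero => exact h0
    | succ n ih => rw [hvs]; exact hF1 n _ ih
  have hvd : ∀ n, dist (v n) (v (n + 1)) ≤ (8 * γ) * (1 / 2) ^ n := by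
    intro n
    rw [hvs, dist_comm, dist_eq_norm]
    exact hF2 n _ (hvP n)
  have hcau := cauchySeq_of_le_geometric (1 / 2) (8 * γ) (by norm_num) hvd
  obtain ⟨w, hw⟩ := cauchySeq_tendsto_of_complete hcau
  have hdist := dist_le_of_le_geometric_of_tendsto₀ (1 / 2) (8 * γ) (by norm_num) hvd hw
  have hstar : Tendsto (fun n => star (v n)) atTop (𝓝 (star w)) :=
    (continuous_star.tendsto w).comp hw
  refine ⟨w, ?_, ?_, ?_, ?_⟩
  · refine Unitary.mem_iff.2 ⟨?_, ?_⟩
    · refine tendsto_nhds_unique (hstar.mul hw) ?_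
      refine tendsto_const_nhds.congr fun n => ?_
      exact (Unitary.mem_iff.1 (hvP n).1).1.symm
    · refine tendsto_nhds_unique (hw.mul hstar) ?_
      refine tendsto_const_nhds.congr fun n => ?_
      exact (Unitary.mem_iff.1 (hvP n).1).2.symm
  · rw [hv0, dist_comm, dist_eq_norm] at hdist
    refine hdist.trans (le_of_eq ?_)
    ring
  · intro S hS hSN
    refine tendsto_nhds_unique (hw.const_mul S) ((hw.mul_const S).congr fun n => ?_)
    exact ((hvP n).2.1 S hS hSN).symm
  · intro g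
    choose y hyN hy using fun n => (hvP n).2.2 g
    have h1 : Tendsto (fun n => v n * U g * star (v n)) atTop (𝓝 (w * U g * star w)) :=
      (hw.mul_const (U g)).mul hstar
    have h2 : Tendsto (fun n => v n * U g * star (v n) - y n) atTop (𝓝 0) := by
      refine squeeze_zero_norm hy ?_
      have h3 := (tendsto_pow_atTop_nhds_zero_of_lt_one (by norm_num : (0 : ℝ) ≤ 1 / 2)
        (by norm_num)).const_mul γ
      rwa [mul_zero] at h3
    have h3 : Tendsto y atTop (𝓝 (w * U g * star w)) := by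
      have h4 := h1.sub h2
      rw [sub_zero] at h4
      refine h4.congr fun n => ?_
      abel
    exact mem_of_tendsto_vn N hyN h3

end Pool.Agent.W203.KKS
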