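import Mathlib
import Pool.Agent.W203.KKS.Perturb
import Pool.Agent.W662.KKS.Stmts

set_option autoImplicit false
set_option linter.unusedSectionVars false

open Filter Topology
open scoped InnerProductSpace
open Pool.Agent.W663.KK (norm_unitary_le)
open Pool.Agent.W662.KKS

namespace Pool.Agent.W203.KKS

variable {H : Type} [NormedAddCommGroup H] [InnerProductSpace ℂ H] [CompleteSpace H]

/-- the set `w⁻¹ S w` -/
def cset (w : H →L[ℂ] H) (S : Set (H →L[ℂ] H)) : Set (H →L[ℂ] H) := {x | w * x * star w ∈ S}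

theorem mem_cset {w : H →L[ℂ] H} {S : Set (H →L[ℂ] H)} {x : H →L[ℂ] H} :
    x ∈ cset w S ↔ w * x * star w ∈ S := Iff.rfl

theorem centralizer_cset {w : H →L[ℂ] H} (hw : w ∈ unitary (H →L[ℂ] H))
    (S : Set (H →L[ℂ] H)) : Set.centralizer (cset w S) = cset w (Set.centralizer S) := by
  have h1 := (Unitary.mem_iff.1 hw).1
  have h2 := (Unitary.mem_iff.1 hw).2
  ext x
  rw [mem_cset, Set.mem_centralizer_iff, Set.mem_centralizer_iff]
  constructor
  · intro h s hs
    have h3 : w * (star w * s * w) * star w = s := by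
      calc w * (star w * s * w) * star w = (w * star w) * s * (w * star w) := by noncomm_ring
        _ = s := by rw [h2, one_mul, mul_one]
    have h4 := h (star w * s * w) (by rw [mem_cset, h3]; exact hs)
    calc s * (w * x * star w) = (w * star w) * s * (w * x * star w) := by rw [h2, one_mul]
      _ = w * (star w * s * w * x) * star w := by noncomm_ring
      _ = w * (x * (star w * s * w)) * star w := by rw [h4]
      _ = w * x * star w * s * (w * star w) := by noncomm_ring
      _ = w * x * star w * s := by rw [h2, mul_one]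
  · intro h y hy
    have h3 := h _ (mem_cset.1 hy)
    calc y * x = (star w * w) * y * (star w * w) * x * (star w * w) := by
          rw [h1]; simp
      _ = star w * (w * y * star w * (w * x * star w)) * w := by noncomm_ring
      _ = star w * (w * x * star w * (w * y * star w)) * w := by rw [h3]
      _ = (star w * w) * x * (star w * w) * y * (star w * w) := by noncomm_ring
      _ = x * y := by rw [h1]; simp

/-- the von Neumann algebra `w⁻¹ N w` for a unitary `w` -/
noncomputable def cvn (w : H →L[ℂ] H) (hw : w ∈ unitary (H →L[ℂ] H)) (N : VonNeumannAlgebra H) :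
    VonNeumannAlgebra H where
  carrier := cset w (N : Set (H →L[ℂ] H))
  mul_mem' := by
    intro a b ha hb
    rw [mem_cset] at *
    have h1 : w * (a * b) * star w = (w * a * star w) * (w * b * star w) := by
      calc w * (a * b) * star w = w * a * 1 * b * star w := by noncomm_ring
        _ = w * a * (star w * w) * b * star w := by rw [(Unitary.mem_iff.1 hw).1]
        _ = _ := by noncomm_ring
    rw [h1]
    exact mul_mem (S := StarSubalgebra ℂ (H →L[ℂ] H)) ha hb
  add_mem' := by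
    intro a b ha hb
    rw [mem_cset] at *
    have h1 : w * (a + b) * star w = (w * a * star w) + (w * b * star w) := by noncomm_ring
    rw [h1]
    exact add_mem (S := StarSubalgebra ℂ (H →L[ℂ] H)) ha hb
  algebraMap_mem' := by
    intro r
    rw [mem_cset]
    have h1 : w * (algebraMap ℂ (H →L[ℂ] H) r) * star w = algebraMap ℂ (H →L[ℂ] H) r := by
      rw [← Algebra.commutes, mul_assoc, (Unitary.mem_iff.1 hw).2, mul_one]
    rw [h1]
    exact N.algebraMap_mem' r
  star_mem' := by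
    intro a ha
    rw [mem_cset] at *
    have h1 : w * star a * star w = star (w * a * star w) := by
      rw [star_mul, star_mul, star_star, mul_assoc]
    rw [h1]
    exact star_mem (s := N.toStarSubalgebra) ha
  centralizer_centralizer' := by
    show Set.centralizer (Set.centralizer (cset w (N : Set (H →L[ℂ] H)))) =
      cset w (N : Set (H →L[ℂ] H))
    rw [centralizer_cset hw, centralizer_cset hw, VonNeumannAlgebra.centralizer_centralizer]

theorem mem_cvn {w : H →L[ℂ] H} {hw : w ∈ unitary (H →L[ℂ] H)} {N : VonNeumannAlgebra H}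
    {x : H →L[ℂ] H} : x ∈ cvn w hw N ↔ w * x * star w ∈ N := Iff.rfl

theorem mem_cvn_commutant {w : H →L[ℂ] H} {hw : w ∈ unitary (H →L[ℂ] H)}
    {N : VonNeumannAlgebra H} {x : H →L[ℂ] H} :
    x ∈ (cvn w hw N).commutant ↔ w * x * star w ∈ N.commutant := by
  have h := Set.ext_iff.1 (centralizer_cset hw (N : Set (H →L[ℂ] H))) x
  rw [mem_cset, Set.mem_centralizer_iff, Set.mem_centralizer_iff] at h
  rw [VonNeumannAlgebra.mem_commutant_iff, VonNeumannAlgebra.mem_commutant_iff]
  exact h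

/-- the group of the unitaries of the union of the `G n` -/
def gr {M : VonNeumannAlgebra H} {ξ : H} {G : ℕ → Finset (H →L[ℂ] H)} (hG : LFG M ξ G) :
    Subgroup (unitary (H →L[ℂ] H)) where
  carrier := {u | ∃ n, (u : H →L[ℂ] H) ∈ G n}
  mul_mem' := by
    rintro a b ⟨n, hn⟩ ⟨m, hm⟩
    exact ⟨max n m, hG.mul _ _ (hG.mono (le_max_left n m) hn) _ (hG.mono (le_max_right n m) hm)⟩
  one_mem' := ⟨0, hG.one 0⟩
  inv_mem' := by
    rintro a ⟨n, hn⟩
    exact ⟨n, hG.stm n _ hn⟩

theorem finite_gr {M : VonNeumannAlgebra H} {ξ : H} {G : ℕ → Finset (H →L[ℂ] H)}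
    (hG : LFG M ξ G) (n : ℕ) :
    {u : gr hG | ((u : unitary (H →L[ℂ] H)) : H →L[ℂ] H) ∈ G n}.Finite := by
  have h : {u : gr hG | ((u : unitary (H →L[ℂ] H)) : H →L[ℂ] H) ∈ G n} =
      (fun u : gr hG => ((u : unitary (H →L[ℂ] H)) : H →L[ℂ] H)) ⁻¹' (G n : Set (H →L[ℂ] H)) := rfl
  rw [h]
  refine Set.Finite.preimage ?_ (G n).finite_toSet
  exact fun a _ b _ hab => Subtype.ext (Subtype.ext hab)

noncomputable instance lfgr {M : VonNeumannAlgebra H} {ξ : H} {G : ℕ → Finset (H →L[ℂ] H)}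
    (hG : LFG M ξ G) : LF (gr hG) where
  F := fun n => (finite_gr hG n).toFinset
  mono := by
    intro n m hnm u hu
    rw [Set.Finite.mem_toFinset] at *
    exact hG.mono hnm hu
  one := fun n => by
    rw [Set.Finite.mem_toFinset]
    exact hG.one n
  mul := by
    intro n a ha b hb
    rw [Set.Finite.mem_toFinset] at *
    exact hG.mul n _ ha _ hb
  inv := by
    intro n a ha
    rw [Set.Finite.mem_toFinset] at *
    exact hG.stm n _ ha
  cover := by
    rintro ⟨a, n, hn⟩
    refine ⟨n, ?_⟩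
    rw [Set.Finite.mem_toFinset]
    exact hn

theorem ul : S_UL := by
  refine ⟨20000, by norm_num, ?_⟩
  intro H _ _ _ M N ξ ρ G γ hS hG hγ0 hγ hMN hMN'
  have hγ1 : γ ≤ 1 / 20000 := hγ
  -- first unitary
  let U : gr hG →* (H →L[ℂ] H) :=
    { toFun := fun u => ((u : unitary (H →L[ℂ] H)) : H →L[ℂ] H)
      map_one' := rfl
      map_mul' := fun _ _ => rfl }
  have hUu : ∀ g, U g ∈ unitary (H →L[ℂ] H) := fun g => (g : unitary (H →L[ℂ] H)).2
  have hUM : ∀ g, U g ∈ M := by
    rintro ⟨g, n, hn⟩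
    exact hG.mem n _ hn
  have hn1 : ∀ g, ‖U g‖ ≤ 1 := fun g => norm_unitary_le (hUu g)
  obtain ⟨w₁, hw₁, hw₁1, -, hw₁N⟩ := perturb U hUu N (γ := γ) (by linarith) (fun g => by
    obtain ⟨y, hy, hyd⟩ := hMN (U g) (hUM g)
    exact ⟨y, hy, hyd.trans (by nlinarith [hn1 g])⟩)
  have hw₁n : ‖w₁‖ ≤ 1 := norm_unitary_le hw₁
  have hw₁s : star w₁ ∈ unitary (H →L[ℂ] H) := Unitary.star_mem hw₁
  have hw₁sn : ‖star w₁‖ ≤ 1 := norm_unitary_le hw₁s
  have e1 := (Unitary.mem_iff.1 hw₁).1
  have e2 := (Unitary.mem_iff.1 hw₁).2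
  -- the right copy
  have hsM : ∀ g : gr hG, star (U g) ∈ M := fun g => star_mem (s := M.toStarSubalgebra) (hUM g)
  let V : gr hG →* (H →L[ℂ] H) :=
    { toFun := fun u => ρ (star (U u))
      map_one' := by rw [map_one, star_one, hS.one]
      map_mul' := fun a b => by
        rw [map_mul, star_mul, hS.mul _ (hsM b) _ (hsM a)] }
  have hVd : ∀ g, V g = ρ (star (U g)) := fun _ => rfl
  have hVu : ∀ g, V g ∈ unitary (H →L[ℂ] H) := by
    intro g
    have h1 : star (V g) = ρ (U g) := by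
      rw [hVd, ← hS.stm _ (hsM g), star_star]
    refine Unitary.mem_iff.2 ⟨?_, ?_⟩
    · rw [h1, hVd, ← hS.mul _ (hsM g) _ (hUM g), (Unitary.mem_iff.1 (hUu g)).1, hS.one]
    · rw [h1, hVd, ← hS.mul _ (hUM g) _ (hsM g), (Unitary.mem_iff.1 (hUu g)).2, hS.one]
  have hVM : ∀ g, V g ∈ M.commutant := by
    intro g
    rw [VonNeumannAlgebra.mem_commutant_iff]
    intro x hx
    exact (hS.comm _ (hsM g) x hx).symm
  have hVn : ∀ g, ‖V g‖ ≤ 1 := fun g => norm_unitary_le (hVu g)
  obtain ⟨w₂, hw₂, hw₂1, hw₂c, hw₂N⟩ := perturb V hVu (cvn w₁ hw₁ N).commutant (γ := 33 * γ)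
    (by linarith) (fun g => by
      obtain ⟨y, hy, hyd⟩ := hMN' (V g) (hVM g)
      have hyd' : ‖V g - y‖ ≤ γ := hyd.trans (by nlinarith [hVn g])
      refine ⟨star w₁ * y * w₁, ?_, ?_⟩
      · rw [mem_cvn_commutant]
        have h1 : w₁ * (star w₁ * y * w₁) * star w₁ = y := by
          calc w₁ * (star w₁ * y * w₁) * star w₁ = (w₁ * star w₁) * y * (w₁ * star w₁) := by
                noncomm_ring
            _ = y := by rw [e2, one_mul, mul_one]
        rw [h1]
        exact hy
      · have h1 : V g - star w₁ * y * w₁ =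
            star w₁ * ((w₁ - 1) * V g - V g * (w₁ - 1)) + star w₁ * (V g - y) * w₁ := by
          calc V g - star w₁ * y * w₁ = 1 * V g - star w₁ * y * w₁ := by rw [one_mul]
            _ = (star w₁ * w₁) * V g - star w₁ * y * w₁ := by rw [e1]
            _ = _ := by noncomm_ring
        rw [h1]
        have h2 : ‖star w₁ * ((w₁ - 1) * V g - V g * (w₁ - 1))‖ ≤ 32 * γ := by
          calc _ ≤ ‖star w₁‖ * ‖(w₁ - 1) * V g - V g * (w₁ - 1)‖ := norm_mul_le _ _
            _ ≤ 1 * ‖(w₁ - 1) * V g - V g * (w₁ - 1)‖ :=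
                mul_le_mul_of_nonneg_right hw₁sn (norm_nonneg _)
            _ ≤ 1 * (‖(w₁ - 1) * V g‖ + ‖V g * (w₁ - 1)‖) :=
                mul_le_mul_of_nonneg_left (norm_sub_le _ _) zero_le_one
            _ ≤ 1 * (‖w₁ - 1‖ * ‖V g‖ + ‖V g‖ * ‖w₁ - 1‖) :=
                mul_le_mul_of_nonneg_left (add_le_add (norm_mul_le _ _) (norm_mul_le _ _))
                  zero_le_one
            _ ≤ 32 * γ := by nlinarith [hVn g, norm_nonneg (w₁ - 1), norm_nonneg (V g)]
        have h3 : ‖star w₁ * (V g - y) * w₁‖ ≤ γ := by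
          calc _ ≤ ‖star w₁ * (V g - y)‖ * ‖w₁‖ := norm_mul_le _ _
            _ ≤ ‖star w₁ * (V g - y)‖ * 1 := mul_le_mul_of_nonneg_left hw₁n (norm_nonneg _)
            _ ≤ (‖star w₁‖ * ‖V g - y‖) * 1 :=
                mul_le_mul_of_nonneg_right (norm_mul_le _ _) zero_le_one
            _ ≤ (1 * γ) * 1 := by
                refine mul_le_mul_of_nonneg_right ?_ zero_le_one
                exact mul_le_mul hw₁sn hyd' (norm_nonneg _) zero_le_one
            _ = γ := by ring
        calc _ ≤ ‖star w₁ * ((w₁ - 1) * V g - V g * (w₁ - 1))‖ + ‖star w₁ * (V g - y) * w₁‖ :=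
              norm_add_le _ _
          _ ≤ 32 * γ + γ := add_le_add h2 h3
          _ = 33 * γ := by ring)
  refine ⟨w₁ * w₂, mul_mem hw₁ hw₂, ?_, ?_, ?_⟩
  · have h1 : w₁ * w₂ - 1 = w₁ * (w₂ - 1) + (w₁ - 1) := by noncomm_ring
    rw [h1]
    calc ‖w₁ * (w₂ - 1) + (w₁ - 1)‖ ≤ ‖w₁ * (w₂ - 1)‖ + ‖w₁ - 1‖ := norm_add_le _ _
      _ ≤ ‖w₁‖ * ‖w₂ - 1‖ + ‖w₁ - 1‖ := add_le_add (norm_mul_le _ _) le_rfl
      _ ≤ 20000 * γ := by nlinarith [norm_nonneg (w₂ - 1)]
  · intro n u hu
    have huu : u ∈ unitary (H →L[ℂ] H) := Unitary.mem_iff.2 ⟨hG.su n u hu, hG.us n u hu⟩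
    let g : gr hG := ⟨⟨u, huu⟩, n, hu⟩
    have hg : U g = u := rfl
    have h1 : u * w₂ = w₂ * u := by
      refine hw₂c u ?_ ?_
      · intro g'
        exact (hS.comm _ (hsM g') u (hG.mem n u hu)).symm
      · intro y hy
        have h2 : u ∈ cvn w₁ hw₁ N := by
          rw [mem_cvn]
          exact hw₁N g
        exact (VonNeumannAlgebra.mem_commutant_iff.1 hy) u h2
    have h2 : w₁ * w₂ * u * star (w₁ * w₂) = w₁ * u * star w₁ := by
      rw [star_mul]
      calc w₁ * w₂ * u * (star w₂ * star w₁) = w₁ * (w₂ * u) * star w₂ * star w₁ := by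
            noncomm_ring
        _ = w₁ * (u * w₂) * star w₂ * star w₁ := by rw [h1]
        _ = w₁ * u * (w₂ * star w₂) * star w₁ := by noncomm_ring
        _ = w₁ * u * star w₁ := by rw [(Unitary.mem_iff.1 hw₂).2, mul_one]
    rw [h2]
    exact hw₁N g
  · intro n u hu
    have hus := hG.stm n u hu
    have huu : star u ∈ unitary (H →L[ℂ] H) :=
      Unitary.mem_iff.2 ⟨hG.su n _ hus, hG.us n _ hus⟩
    let g : gr hG := ⟨⟨star u, huu⟩, n, hus⟩
    have hg : V g = ρ u := by
      show ρ (star (star u)) = ρ u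
      rw [star_star]
    have h1 := hw₂N g
    rw [mem_cvn_commutant, hg] at h1
    have h2 : w₁ * w₂ * ρ u * star (w₁ * w₂) = w₁ * (w₂ * ρ u * star w₂) * star w₁ := by
      rw [star_mul]; noncomm_ring
    rw [h2]
    exact h1

end Pool.Agent.W203.KKS
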